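import Pool.Agent.T9h5.BG.Xl

/-!
# The complexes `Γ(X,n) ⊗ ℚ` of curves over finite fields

Let `X` be a regular curve over an algebraic extension of `F_p` (for instance over a finite field)
with function field `F`, and `n ≥ 2`. By theorems of Harder and Quillen (and localisation)
`gr_n K_m(X)_ℚ = 0` for all `m`, so the question for `X` is whether the complexes `Γ(X,n) ⊗ ℚ`,
`n ≥ 2`, are acyclic.

* For every such `X` the vanishing of `H^1(Γ(X,k) ⊗ ℚ)` for `2 ≤ k < n` implies
  `H^i(Γ(X,n) ⊗ ℚ) = 0` for all `i ≥ 2`. So the question for `X` and all `n ≥ 2` is equivalent to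
  the injectivity of the differentials `δ_n` of the groups `B_n(F) ⊗ ℚ` for all `n ≥ 2`.
* If `F` is in the class `RationalClass`, for instance if `X` is a nonempty open subset of `P^1_k`,
  `k` a finite field or any algebraic extension of `F_p`, then all complexes `Γ(X,n) ⊗ ℚ`, `n ≥ 2`,
  are acyclic.

The starting file `OpenSubsetsProjectiveLine` has the second result only for algebraically closed
`k`, and for the other fields of the class only the vanishing of `H^1`. The new ingredient is the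
spanning theorem `SpanDual` for all fields of characteristic `p` and transcendence degree at most
one (`Pool.Agent.T9h5.GG`): the elements `(1 - f) ⊗ f^(m+1)`, `f ≠ 0, 1`, span
`F^* ⊗ Sym^(m+1) F^* ⊗ ℚ`.

The definitions are in `Pool/Agent/H39R2/GonP/Defs.lean`, `Pool/Agent/TH358/BG/Defs.lean`,
`Pool/Agent/TH358/GP/Ret.lean` (`RetractRational`), `Pool/Agent/TH358/GP/Cls.lean`
(`RationalClass`) and `Pool/Agent/T9h5/BG/Xl.lean` (`DegOneZero`, `HighZero`).
-/

set_option autoImplicit false

namespace Pool.Agent.Results.MP_bae8ce_ag.CurvesOverFiniteFields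

open GonP Pool.Agent.TH358.GP Pool.Agent.TH358.BG Pool.Agent.T9h5.BG

theorem result :
    -- all regular curves over algebraic extensions of `F_p`: `F` is the function field, `κ x` the
    -- residue field of the closed point `x ∈ X`
    (∀ (p : ℕ) [Fact p.Prime] (F : Type) [Field F] [Algebra (ZMod p) F],
      Algebra.trdeg (ZMod p) F ≤ 1 →
      ∀ (X : Type) (κ : X → Type) [∀ x, Field (κ x)] [∀ x, Algebra (ZMod p) (κ x)]
        [∀ x, Algebra.IsAlgebraic (ZMod p) (κ x)] (DF : Differentials F)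
        (Dκ : ∀ x, Differentials (κ x)) (res : Res F κ),
      (∀ n, 2 ≤ n → (∀ k, 2 ≤ k → k < n → DegOneZero DF Dκ res k) → HighZero DF Dκ res n) ∧
      (XAcyclic DF Dκ res ↔ ∀ n, 2 ≤ n → DegOneZero DF Dκ res n)) ∧
    -- the curves with function field in the class
    (∀ (p : ℕ) [Fact p.Prime] (F : Type) [i : Field F] [Algebra (ZMod p) F],
      Algebra.trdeg (ZMod p) F ≤ 1 → RationalClass F i →
      Nonempty (Differentials F) ∧
      ∀ (X : Type) (κ : X → Type) [∀ x, Field (κ x)] [∀ x, Algebra (ZMod p) (κ x)]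
        [∀ x, Algebra.IsAlgebraic (ZMod p) (κ x)] (DF : Differentials F)
        (Dκ : ∀ x, Differentials (κ x)) (res : Res F κ), XAcyclic DF Dκ res) ∧
    -- open subsets of the projective line over any algebraic extension `k` of `F_p`
    (∀ (p : ℕ) [Fact p.Prime] (k : Type) [Field k] [Algebra (ZMod p) k]
        [Algebra.IsAlgebraic (ZMod p) k],
      Nonempty (Differentials (RatFunc k)) ∧
      ∀ (X : Type) (κ : X → Type) [∀ x, Field (κ x)] [∀ x, Algebra (ZMod p) (κ x)]
        [∀ x, Algebra.IsAlgebraic (ZMod p) (κ x)] (DF : Differentials (RatFunc k))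
        (Dκ : ∀ x, Differentials (κ x)) (res : Res (RatFunc k) κ), XAcyclic DF Dκ res) := by
  have h1 : ∀ (p : ℕ) [Fact p.Prime] (F : Type) [Field F] [Algebra (ZMod p) F],
      Algebra.trdeg (ZMod p) F ≤ 1 →
      ∀ (X : Type) (κ : X → Type) [∀ x, Field (κ x)] [∀ x, Algebra (ZMod p) (κ x)]
        [∀ x, Algebra.IsAlgebraic (ZMod p) (κ x)] (DF : Differentials F)
        (Dκ : ∀ x, Differentials (κ x)) (res : Res F κ),
      (∀ n, 2 ≤ n → (∀ k, 2 ≤ k → k < n → DegOneZero DF Dκ res k) → HighZero DF Dκ res n) ∧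
      (XAcyclic DF Dκ res ↔ ∀ n, 2 ≤ n → DegOneZero DF Dκ res n) := by
    intro p _ F _ _ hF X κ _ _ _ DF Dκ res
    have hsd := Pool.Agent.T9h5.GG.sdAll p F hF
    have hG := generic p F κ DF Dκ res
    exact ⟨fun n _ h => high_of hsd DF Dκ res hG n h, xacyclic_iff hsd DF Dκ res hG⟩
  have h2 : ∀ (p : ℕ) [Fact p.Prime] (F : Type) [i : Field F] [Algebra (ZMod p) F],
      Algebra.trdeg (ZMod p) F ≤ 1 → RationalClass F i →
      Nonempty (Differentials F) ∧
      ∀ (X : Type) (κ : X → Type) [∀ x, Field (κ x)] [∀ x, Algebra (ZMod p) (κ x)]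
        [∀ x, Algebra.IsAlgebraic (ZMod p) (κ x)] (DF : Differentials F)
        (Dκ : ∀ x, Differentials (κ x)) (res : Res F κ), XAcyclic DF Dκ res := by
    intro p _ F i _ hF hC
    obtain ⟨⟨D, -⟩, -⟩ := main_class' F hC
    refine ⟨⟨D⟩, fun X κ _ _ _ DF Dκ res => ?_⟩
    refine ((h1 p F hF X κ DF Dκ res).2).2 fun n _ m _ z hz => ?_
    exact degreeOne F hC κ DF Dκ res m z hz
  refine ⟨h1, h2, ?_⟩
  intro p _ k _ _ _
  have h3 : Algebra.trdeg (ZMod p) (RatFunc k) ≤ 1 := trdeg_ratFunc p k
  exact h2 p (RatFunc k) h3 (RationalClass.ratFunc k inferInstance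
    (RationalClass.base k inferInstance (finite_sub p k)))

end Pool.Agent.Results.MP_bae8ce_ag.CurvesOverFiniteFields
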