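import Pool.Agent.T9h5.Zagier.Main
import Pool.Agent.T9h77.NF.Final

/-!
# Polylogarithms and the `K`-groups of number fields: surjectivity

Let `K` be a number field and `n ≥ 2`. By theorems of Borel `K_{2n-1}(K) ⊗ ℚ` has dimension `d_n`
(`r_1 + r_2` for odd `n`, `r_2` for even `n`), and the regulator embeds it into `ℝ^(d_n)`; let `Λ_n`
be the image. By theorems of Beilinson-Deligne and de Jeu the regulators `(L_n(σ_v(α)))_v` of the
elements `α` of Zagier's inductively defined group `A_n(K)` lie in `Λ_n`, so
`A_n(K)/C_n(K) ⊗ ℚ` has dimension at most `d_n`. Zagier's conjecture says that one gets everything,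
in particular that `ζ_K(n)` is, up to the usual factors, a determinant of combinations of values of
the `n`-th polylogarithm. This was known for `n = 2` (Bloch, Suslin), `n = 3` (Goncharov) and
`n = 4` (Goncharov-Rudenko). Here it is proved for all `n ≥ 2` and all number fields; the bounds
`dim A_m/C_m ≤ d_m` of the theorems quoted above are hypotheses of the Lean theorem.

Proof. Suppose that the regulators of `A_n = ker δ_n` do not span `ℝ^(d_n)`. Then there are `c_v`,
not all zero, with `∑_v c_v L_n(σ_v(α)) = 0` on `ker δ_n`, so this functional factors through `δ_n`.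
By induction the functionals on `ℚ[X]/C_m`, `m < n`, are combinations of the regulators and of
functionals of `δ_m`. So `∑_v c_v L_n(σ_v x) = ∑_(v, j < n) P_(v,j)(x,...,x) L_j(σ_v x) +
Q(x,...,x;1-x)` with multilinear forms on `K^× ⊗ ℝ` for all `x ∈ K^×` with `|x|_v < 1` for all
`v | ∞`. This is excluded by `SpanPerN` (the analytic theorem behind the depth conjecture for number
fields; it is proved by counting solutions of `A ε a + l^e b = ε' c` in the ring of integers with
the large sieve).
-/

set_option autoImplicit false

namespace Pool.Agent.Results.MP_bae8ce_ag.ZagierNumberFields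

open NumberField Pool.Agent.T9h5.Zagier

theorem result (K : Type) [Field K] [NumberField K]
    -- `X = K ∖ {0, 1}`, or any set of elements of `K` which contains all `x ≠ 0` with `|x|_v < 1` for
    -- all `v | ∞`
    (X : Set K) (hX : ContainsDisc X)
    -- Zagier's functions, or any functions which agree with them on `0 < |z| < 1`
    (L : ℕ → ℂ → ℝ) (hL : IsZagier L) :
    -- Zagier's groups exist
    (∃ C, IsC X L C) ∧
    -- if `dim A_m/C_m ≤ d_m` for `2 ≤ m < n` then the regulators of the elements of `A_n` span
    -- `ℝ^(d_n)`
    (∀ C, IsC X L C → ∀ n, 2 ≤ n → (∀ m, 2 ≤ m → m < n → Bound X C m) → Spans X L C n) ∧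
    -- if the bound holds for `2 ≤ m ≤ n` then the dimension of `A_n/C_n` is `d_n`, and the regulators
    -- of the elements of `A_n` exhaust every `ℚ`-vector space `Λ` of dimension `≤ d_n` in which they
    -- lie (`Λ` = the regulators of `K_{2n-1}(K) ⊗ ℚ`)
    (∀ C, IsC X L C → ∀ n, 2 ≤ n → (∀ m, 2 ≤ m → m ≤ n → Bound X C m) →
      Module.rank ℚ (Bl X C n) = dn K n ∧ Exhausts X L C n) ∧
    -- the first statement for arbitrary groups of relations `S_m`
    ∀ (S : ℕ → Submodule ℚ (QX X)) (n : ℕ), 2 ≤ n →
      (∀ m, 2 ≤ m → m < n → Adapted X L S m) → Spans X L S n := by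
  have hK := Pool.Agent.T9h77.NF.spanPerN K
  exact ⟨exists_C X L, fun C hC => (main hK hX hL hC).1, fun C hC => (main hK hX hL hC).2,
    fun S n hn h => span_top hK hX hL S n hn h⟩

end Pool.Agent.Results.MP_bae8ce_ag.ZagierNumberFields
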